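import Pool.Agent.V11232.CF.Snd

/-!
Completeness of the simulation.
-/

set_option autoImplicit false

namespace Pool.Agent.V11232.CF

open Relation Function
open Pool.Agent.Helper273.Machine (MI mstep st0 exists_machine)
open Pool.Agent.W937.FG (abc)

section

variable {K : ℕ} {Q : Type} {ins : Q → MI K Q} {q0 q1 : Q} {r0 r1 : Fin K}

theorem fm_some (l : List (Fin 3)) : (l.map some).filterMap id = l := by
  induction l with
  | nil => rfl
  | cons a l ih => simp

theorem fm_none (n : ℕ) : (List.replicate n (none : Option (Fin 3))).filterMap id = [] := by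
  induction n with
  | zero => rfl
  | succ n ih => rw [List.replicate_succ, List.filterMap_cons_none rfl]; exact ih

/-- derivations -/
abbrev D (ins : Q → MI K Q) (q0 q1 : Q) (r0 r1 : Fin K) (α β : List (Sy K Q)) : Prop :=
  ReflTransGen (Step (RS ins q0 q1 r0 r1)) α β

theorem D.of {l r : List (Sy K Q)} (h : Ru ins q0 q1 r0 r1 l r) (u v : List (Sy K Q)) :
    D ins q0 q1 r0 r1 (u ++ l ++ v) (u ++ r ++ v) :=
  ReflTransGen.single ⟨u, v, l, r, h, rfl, rfl⟩

theorem D.of' {l r : List (Sy K Q)} (h : Ru ins q0 q1 r0 r1 l r) (v : List (Sy K Q)) :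
    D ins q0 q1 r0 r1 (l ++ v) (r ++ v) := by
  simpa using D.of h [] v

/-- moving to the left -/
theorem D.back (q : Q) (u : List (Option (Fin K))) (x y : List (Sy K Q)) :
    D ins q0 q1 r0 r1 (x ++ (TK Q u ++ nt (.bwd q) :: y)) (x ++ (nt (.bwd q) :: (TK Q u ++ y))) := by
  induction u using List.reverseRecOn generalizing y with
  | nil => exact .refl
  | append_singleton u i ih =>
    have h1 : D ins q0 q1 r0 r1 ((x ++ TK Q u) ++ [tk Q i, nt (.bwd q)] ++ y)
        ((x ++ TK Q u) ++ [nt (.bwd q), tk Q i] ++ y) := D.of (.bk q i) _ _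
    have h2 := ih (tk Q i :: y)
    have e1 : x ++ (TK Q (u ++ [i]) ++ nt (.bwd q) :: y) =
        (x ++ TK Q u) ++ [tk Q i, nt (.bwd q)] ++ y := by simp [TK]
    have e2 : (x ++ TK Q u) ++ [nt (.bwd q), tk Q i] ++ y =
        x ++ (TK Q u ++ nt (.bwd q) :: tk Q i :: y) := by simp
    have e3 : x ++ (nt (.bwd q) :: (TK Q (u ++ [i]) ++ y)) =
        x ++ (nt (.bwd q) :: (TK Q u ++ tk Q i :: y)) := by simp [TK]
    rw [e1, e3]
    rw [e2] at h1
    exact h1.trans h2

/-- moving to the right -/
theorem D.forw (q p p' : Q) (r : Fin K) (h : ins q = .dec r p p') (u : List (Option (Fin K)))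
    (hu : some r ∉ u) (x y : List (Sy K Q)) :
    D ins q0 q1 r0 r1 (x ++ (nt (.fwd q) :: (TK Q u ++ y))) (x ++ (TK Q u ++ nt (.fwd q) :: y)) := by
  induction u generalizing x with
  | nil => exact .refl
  | cons i u ih =>
    have h1 : D ins q0 q1 r0 r1 (x ++ [nt (.fwd q), tk Q i] ++ (TK Q u ++ y))
        (x ++ [tk Q i, nt (.fwd q)] ++ (TK Q u ++ y)) :=
      D.of (.go q p p' r i h (fun h' => hu (by rw [h']; simp))) _ _
    have h2 := ih (fun h' => hu (by simp [h'])) (x ++ [tk Q i])
    have e1 : x ++ (nt (.fwd q) :: (TK Q (i :: u) ++ y)) =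
        x ++ [nt (.fwd q), tk Q i] ++ (TK Q u ++ y) := by simp [TK]
    have e2 : x ++ [tk Q i, nt (.fwd q)] ++ (TK Q u ++ y) =
        x ++ [tk Q i] ++ (nt (.fwd q) :: (TK Q u ++ y)) := by simp
    have e3 : x ++ (TK Q (i :: u) ++ nt (.fwd q) :: y) =
        x ++ [tk Q i] ++ (TK Q u ++ nt (.fwd q) :: y) := by simp [TK]
    rw [e1, e3]
    rw [e2] at h1
    exact h1.trans h2

theorem D.mach {x y : Q × (Fin K → ℕ)} (h : mstep ins x = y) (v : List (Option (Fin K)))
    (hv : cnt v = x.2) : ∃ v', cnt v' = y.2 ∧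
      D ins q0 q1 r0 r1 (nt .L :: nt (.bwd x.1) :: (TK Q v ++ [nt .R]))
        (nt .L :: nt (.bwd y.1) :: (TK Q v' ++ [nt .R])) := by
  obtain ⟨q, c⟩ := x
  simp only at hv ⊢
  subst hv
  unfold mstep at h
  cases hq : ins q with
  | inc r q' =>
    rw [show ins (q, cnt v).1 = .inc r q' from hq] at h
    subst h
    refine ⟨some r :: v, ?_, ?_⟩
    · have := cnt_some (K := K) [] v r
      simpa using this
    · have := D.of' (ins := ins) (q0 := q0) (q1 := q1) (r0 := r0) (r1 := r1) (.inc q q' r hq)
        (TK Q v ++ [nt .R])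
      simpa [TK] using this
  | jmp q' =>
    rw [show ins (q, cnt v).1 = .jmp q' from hq] at h
    subst h
    refine ⟨v, rfl, ?_⟩
    have := D.of' (ins := ins) (q0 := q0) (q1 := q1) (r0 := r0) (r1 := r1) (.jmp q q' hq)
        (TK Q v ++ [nt .R])
    simpa using this
  | dec r p p' =>
    rw [show ins (q, cnt v).1 = .dec r p p' from hq] at h
    have h0 : D ins q0 q1 r0 r1 (nt .L :: nt (.bwd q) :: (TK Q v ++ [nt .R]))
        (nt .L :: nt (.fwd q) :: (TK Q v ++ [nt .R])) := by
      have := D.of' (ins := ins) (q0 := q0) (q1 := q1) (r0 := r0) (r1 := r1) (.dec q)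
        (TK Q v ++ [nt .R])
      simpa using this
    by_cases hm : some r ∈ v
    · obtain ⟨a, b, ha, hab⟩ : ∃ a b, some r ∉ a ∧ v = a ++ some r :: b := by
        obtain ⟨a, b, h1, h2⟩ := List.append_of_mem hm |>.elim fun s hs => hs.elim fun t ht =>
          (List.eq_append_cons_of_mem hm).elim fun a ha => ha.elim fun b hb =>
            (⟨a, b, hb.1, hb.2⟩ : ∃ a b, v = a ++ some r :: b ∧ some r ∉ a)
        exact ⟨a, b, h2, h1⟩
      subst hab
      have hc : cnt (a ++ some r :: b) r ≠ 0 := by
        unfold cnt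
        have := List.count_pos_iff.2 hm
        omega
      simp only [if_neg hc] at h
      subst h
      refine ⟨a ++ none :: b, ?_, ?_⟩
      · rw [cnt_some, cnt_none]
        simp
      · have h1 := D.forw (q0 := q0) (q1 := q1) (r0 := r0) (r1 := r1) q p p' r hq a ha [nt .L]
          (tk Q (some r) :: (TK Q b ++ [nt .R]))
        have h2 : D ins q0 q1 r0 r1
            (([nt .L] ++ TK Q a) ++ [nt (.fwd q), tk Q (some r)] ++ (TK Q b ++ [nt .R]))
            (([nt .L] ++ TK Q a) ++ [nt (.bwd p), tk Q none] ++ (TK Q b ++ [nt .R])) :=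
          D.of (.hit q p p' r hq) _ _
        have h3 := D.back (ins := ins) (q0 := q0) (q1 := q1) (r0 := r0) (r1 := r1) p a [nt .L]
          (tk Q none :: (TK Q b ++ [nt .R]))
        refine h0.trans ?_
        have e1 : (nt .L :: nt (.fwd q) :: (TK Q (a ++ some r :: b) ++ [nt .R]) : List (Sy K Q)) =
            [nt .L] ++ (nt (.fwd q) :: (TK Q a ++ tk Q (some r) :: (TK Q b ++ [nt .R]))) := by
          simp [TK]
        have e2 : ([nt .L] ++ (TK Q a ++ nt (.fwd q) :: tk Q (some r) :: (TK Q b ++ [nt .R])) :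
            List (Sy K Q)) =
            ([nt .L] ++ TK Q a) ++ [nt (.fwd q), tk Q (some r)] ++ (TK Q b ++ [nt .R]) := by
          simp
        have e3 : (([nt .L] ++ TK Q a) ++ [nt (.bwd p), tk Q none] ++ (TK Q b ++ [nt .R]) :
            List (Sy K Q)) =
            [nt .L] ++ (TK Q a ++ nt (.bwd p) :: tk Q none :: (TK Q b ++ [nt .R])) := by
          simp
        have e4 : ([nt .L] ++ (nt (.bwd p) :: (TK Q a ++ tk Q none :: (TK Q b ++ [nt .R]))) :
            List (Sy K Q)) = nt .L :: nt (.bwd p) :: (TK Q (a ++ none :: b) ++ [nt .R]) := by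
          simp [TK]
        rw [e1]
        rw [e2] at h1
        rw [e3] at h2
        rw [e4] at h3
        exact (h1.trans h2).trans h3
    · have hc : cnt v r = 0 := by
        unfold cnt
        exact List.count_eq_zero.2 hm
      simp only [if_pos hc] at h
      subst h
      refine ⟨v, rfl, ?_⟩
      have h1 := D.forw (q0 := q0) (q1 := q1) (r0 := r0) (r1 := r1) q p p' r hq v hm [nt .L]
          [nt .R]
      have h2 : D ins q0 q1 r0 r1 (([nt .L] ++ TK Q v) ++ [nt (.fwd q), nt .R] ++ [])
            (([nt .L] ++ TK Q v) ++ [nt (.bwd p'), nt .R] ++ []) :=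
          D.of (.zero q p p' r hq) _ _
      have h3 := D.back (ins := ins) (q0 := q0) (q1 := q1) (r0 := r0) (r1 := r1) p' v [nt .L]
          [nt .R]
      refine h0.trans ?_
      have e2 : ([nt .L] ++ (TK Q v ++ [nt (.fwd q), nt .R]) : List (Sy K Q)) =
            ([nt .L] ++ TK Q v) ++ [nt (.fwd q), nt .R] ++ [] := by simp
      have e3 : (([nt .L] ++ TK Q v) ++ [nt (.bwd p'), nt .R] ++ [] : List (Sy K Q)) =
            [nt .L] ++ (TK Q v ++ [nt (.bwd p'), nt .R]) := by simp
      rw [e2] at h1
      rw [e3] at h2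
      exact (h1.trans h2).trans h3

theorem D.machs (j : ℕ) (x : Q × (Fin K → ℕ)) (v : List (Option (Fin K))) (hv : cnt v = x.2) :
    ∃ v', cnt v' = ((mstep ins)^[j] x).2 ∧
      D ins q0 q1 r0 r1 (nt .L :: nt (.bwd x.1) :: (TK Q v ++ [nt .R]))
        (nt .L :: nt (.bwd ((mstep ins)^[j] x).1) :: (TK Q v' ++ [nt .R])) := by
  induction j with
  | zero => exact ⟨v, hv, .refl⟩
  | succ j ih =>
    obtain ⟨v1, h1, h2⟩ := ih
    rw [iterate_succ_apply']
    obtain ⟨v2, h3, h4⟩ := D.mach (q0 := q0) (q1 := q1) (r0 := r0) (r1 := r1)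
      (rfl : mstep ins ((mstep ins)^[j] x) = _) v1 h1
    exact ⟨v2, h3, h2.trans h4⟩

theorem D.erase (v : List (Option (Fin K))) (hv : ∀ i ∈ v, i = none) (x : List (Sy K Q)) :
    ∃ n, D ins q0 q1 r0 r1 (x ++ nt .fin :: (TK Q v ++ [nt .R]))
      (x ++ TT K Q (List.replicate n none)) := by
  induction v generalizing x with
  | nil =>
    refine ⟨2, ?_⟩
    have := D.of (ins := ins) (q0 := q0) (q1 := q1) (r0 := r0) (r1 := r1) .stop x []
    simpa [TK, TT, List.replicate] using this
  | cons i v ih =>
    obtain rfl := hv i (by simp)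
    obtain ⟨n, h⟩ := ih (fun j hj => hv j (by simp [hj])) (x ++ [te K Q none])
    refine ⟨n + 1, ?_⟩
    have h1 : D ins q0 q1 r0 r1 (x ++ [nt .fin, tk Q none] ++ (TK Q v ++ [nt .R]))
      (x ++ [te K Q none, nt .fin] ++ (TK Q v ++ [nt .R])) := D.of .fi _ _
    have e1 : (x ++ nt .fin :: (TK Q (none :: v) ++ [nt .R]) : List (Sy K Q)) =
      x ++ [nt .fin, tk Q none] ++ (TK Q v ++ [nt .R]) := by simp [TK]
    have e2 : (x ++ [te K Q none, nt .fin] ++ (TK Q v ++ [nt .R]) : List (Sy K Q)) =
      x ++ [te K Q none] ++ nt .fin :: (TK Q v ++ [nt .R]) := by simp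
    have e3 : (x ++ TT K Q (List.replicate (n + 1) none) : List (Sy K Q)) =
      x ++ [te K Q none] ++ TT K Q (List.replicate n none) := by simp [TT, List.replicate_succ]
    rw [e1, e3]
    rw [e2] at h1
    exact h1.trans h

theorem D.gen (m k : ℕ) : D ins q0 q1 r0 r1 [nt .s0]
    (TT K Q ((abc m).map some) ++ nt .L :: nt (.bwd q0) ::
      (TK Q (List.replicate k (some r1) ++ List.replicate m (some r0)) ++ [nt .R])) := by
  have h1 : ∀ n, D ins q0 q1 r0 r1 [nt .s0] (TT K Q (List.replicate n (some 0)) ++ nt .s1 ::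
      (TK Q (List.replicate n (some r0)) ++ [nt .R])) := by
    intro n
    induction n with
    | zero =>
      have := D.of' (ins := ins) (q0 := q0) (q1 := q1) (r0 := r0) (r1 := r1) .start []
      simpa [TT, TK] using this
    | succ n ih =>
      refine ih.trans ?_
      have := D.of (ins := ins) (q0 := q0) (q1 := q1) (r0 := r0) (r1 := r1) .a
        (TT K Q (List.replicate n (some 0))) (TK Q (List.replicate n (some r0)) ++ [nt .R])
      have e1 : (TT K Q (List.replicate (n + 1) (some 0)) ++ nt .s1 ::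
          (TK Q (List.replicate (n + 1) (some r0)) ++ [nt .R]) : List (Sy K Q)) =
          TT K Q (List.replicate n (some 0)) ++ [te K Q (some 0), nt .s1, tk Q (some r0)] ++
          (TK Q (List.replicate n (some r0)) ++ [nt .R]) := by
        rw [List.replicate_succ' (n := n) (a := (some 0 : Option (Fin 3)))]
        simp [TT, TK, List.replicate_succ]
      rw [e1]
      simpa using this
  set V : List (Sy K Q) := TK Q (List.replicate m (some r0)) ++ [nt .R] with hV
  have h2 : ∀ (n : ℕ) (x : List (Sy K Q)), D ins q0 q1 r0 r1 (x ++ nt .s1 :: V)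
      (x ++ TT K Q (List.replicate n (some 1)) ++ nt .s2 :: V) := by
    intro n x
    induction n with
    | zero =>
      have := D.of (ins := ins) (q0 := q0) (q1 := q1) (r0 := r0) (r1 := r1) .ab x V
      simpa [TT] using this
    | succ n ih =>
      refine ih.trans ?_
      have := D.of (ins := ins) (q0 := q0) (q1 := q1) (r0 := r0) (r1 := r1) .b
        (x ++ TT K Q (List.replicate n (some 1))) V
      rw [List.replicate_succ' (n := n)]
      simpa [TT] using this
  have h3 : ∀ (n : ℕ) (x : List (Sy K Q)), D ins q0 q1 r0 r1 (x ++ nt .s2 :: V)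
      (x ++ TT K Q (List.replicate n (some 2)) ++ nt .s3 :: V) := by
    intro n x
    induction n with
    | zero =>
      have := D.of (ins := ins) (q0 := q0) (q1 := q1) (r0 := r0) (r1 := r1) .bc x V
      simpa [TT] using this
    | succ n ih =>
      refine ih.trans ?_
      have := D.of (ins := ins) (q0 := q0) (q1 := q1) (r0 := r0) (r1 := r1) .c
        (x ++ TT K Q (List.replicate n (some 2))) V
      rw [List.replicate_succ' (n := n)]
      simpa [TT] using this
  have h4 : ∀ (n : ℕ) (x : List (Sy K Q)), D ins q0 q1 r0 r1 (x ++ nt .s3 :: V)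
      (x ++ nt .s4 :: (TK Q (List.replicate n (some r1)) ++ V)) := by
    intro n x
    induction n with
    | zero =>
      have := D.of (ins := ins) (q0 := q0) (q1 := q1) (r0 := r0) (r1 := r1) .cm x V
      simpa [TK] using this
    | succ n ih =>
      refine ih.trans ?_
      have := D.of (ins := ins) (q0 := q0) (q1 := q1) (r0 := r0) (r1 := r1) .k
        x (TK Q (List.replicate n (some r1)) ++ V)
      simpa [TK, List.replicate_succ] using this
  have h5 : ∀ (x W : List (Sy K Q)), D ins q0 q1 r0 r1 (x ++ nt .s4 :: W)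
      (x ++ nt .L :: nt (.bwd q0) :: W) := by
    intro x W
    have := D.of (ins := ins) (q0 := q0) (q1 := q1) (r0 := r0) (r1 := r1) .m x W
    simpa using this
  have e : (TT K Q ((abc m).map some) ++ nt .L :: nt (.bwd q0) ::
      (TK Q (List.replicate k (some r1) ++ List.replicate m (some r0)) ++ [nt .R]) :
      List (Sy K Q)) = TT K Q (List.replicate m (some 0)) ++ TT K Q (List.replicate m (some 1)) ++
      TT K Q (List.replicate m (some 2)) ++ nt .L :: nt (.bwd q0) ::
      (TK Q (List.replicate k (some r1)) ++ V) := by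
    simp [abc, TT, TK, hV]
  rw [e]
  exact ((((h1 m).trans (h2 m _)).trans (h3 m _)).trans (h4 k _)).trans (h5 _ _)

theorem gen_of (hK : (r0 : ℕ) = 0) (hK1 : (r1 : ℕ) = 1) (m : ℕ)
    (h : Re ins q0 m (q1, fun _ => 0)) :
    ∃ w, Gen (RS ins q0 q1 r0 r1) .s0 w ∧ w.filterMap id = abc m := by
  obtain ⟨k, j, h⟩ := h
  have h1 := D.gen (ins := ins) (q0 := q0) (q1 := q1) (r0 := r0) (r1 := r1) m k
  have hc : cnt (List.replicate k (some r1) ++ List.replicate m (some r0)) = st0 K m k := by
    funext i
    unfold cnt st0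
    rw [List.count_append, List.count_replicate, List.count_replicate]
    by_cases hi0 : (i : ℕ) = 0
    · have : i = r0 := Fin.ext (by rw [hi0, hK])
      subst this
      have h01 : r1 ≠ i := by
        intro h
        have := congrArg Fin.val h
        omega
      simp [hi0, h01]
    · rw [if_neg hi0]
      by_cases hi1 : (i : ℕ) = 1
      · have : i = r1 := Fin.ext (by rw [hi1, hK1])
        subst this
        have h01 : r0 ≠ i := by
          intro h
          have := congrArg Fin.val h
          omega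
        simp [hi1, h01]
      · have h0 : r0 ≠ i := by
          intro h
          have := congrArg Fin.val h
          omega
        have h1 : r1 ≠ i := by
          intro h
          have := congrArg Fin.val h
          omega
        simp [hi1, h0, h1]
  obtain ⟨v, h2, h3⟩ := D.machs (ins := ins) (q0 := q0) (q1 := q1) (r0 := r0) (r1 := r1) j
    (q0, st0 K m k) _ hc
  rw [h] at h2 h3
  have hv : ∀ i ∈ v, i = none := by
    intro i hi
    cases i with
    | none => rfl
    | some i =>
      have := congrFun h2 i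
      unfold cnt at this
      exact absurd hi (List.count_eq_zero.1 this)
  have h4 : D ins q0 q1 r0 r1 (nt .L :: nt (.bwd q1) :: (TK Q v ++ [nt .R]))
      ([te K Q none] ++ nt .fin :: (TK Q v ++ [nt .R])) := by
    have := D.of' (ins := ins) (q0 := q0) (q1 := q1) (r0 := r0) (r1 := r1) .halt
      (TK Q v ++ [nt .R])
    simpa using this
  obtain ⟨n, h5⟩ := D.erase (ins := ins) (q0 := q0) (q1 := q1) (r0 := r0) (r1 := r1) v hv
    [te K Q none]
  have h6 := Steps.ctx ((h3.trans h4).trans h5) (TT K Q ((abc m).map some)) []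
  refine ⟨(abc m).map some ++ none :: List.replicate n none, ?_, ?_⟩
  · unfold Gen
    refine (h1.trans ?_)
    have e1 : (TT K Q ((abc m).map some) ++ nt .L :: nt (.bwd (q0, st0 K m k).1) ::
      (TK Q (List.replicate k (some r1) ++ List.replicate m (some r0)) ++ [nt .R]) :
      List (Sy K Q)) = TT K Q ((abc m).map some) ++ (nt .L :: nt (.bwd (q0, st0 K m k).1) ::
      (TK Q (List.replicate k (some r1) ++ List.replicate m (some r0)) ++ [nt .R])) ++ [] := by
      simp
    have e2 : (((abc m).map some ++ none :: List.replicate n none).map Symbol.terminal :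
        List (Sy K Q)) = TT K Q ((abc m).map some) ++
          ([te K Q none] ++ TT K Q (List.replicate n none)) ++ [] := by
      simp [TT]
    rw [e2]
    rw [← e1] at h6
    exact h6
  · rw [List.filterMap_append, List.filterMap_cons_none rfl]
    rw [fm_some, fm_none, List.append_nil]

end

end Pool.Agent.V11232.CF
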