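import Mathlib
import Pool.Agent.W298.FG.P2
import Pool.Agent.W382.FG.P1
import Pool.Agent.Helper273.Machine

/-!
A noncontracting grammar which simulates a register machine; a letter used for padding.
-/

set_option autoImplicit false

namespace Pool.Agent.V11232.CF

open Relation Function
open Pool.Agent.Helper273.Machine (MI mstep st0 exists_machine)
open Pool.Agent.W937.FG (abc)

/-- the nonterminals -/
inductive NT (K : ℕ) (Q : Type)
  | s0 | s1 | s2 | s3 | s4 | L | R
  | tok (i : Option (Fin K))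
  | fwd (q : Q)
  | bwd (q : Q)
  | fin

/-- code of a nonterminal -/
def NT.code {K : ℕ} {Q : Type} : NT K Q → Fin 8 ⊕ (Option (Fin K) ⊕ (Q ⊕ Q))
  | .s0 => .inl 0 | .s1 => .inl 1 | .s2 => .inl 2 | .s3 => .inl 3 | .s4 => .inl 4
  | .L => .inl 5 | .R => .inl 6 | .fin => .inl 7
  | .tok i => .inr (.inl i)
  | .fwd q => .inr (.inr (.inl q))
  | .bwd q => .inr (.inr (.inr q))

theorem NT.code_inj {K : ℕ} {Q : Type} : Injective (NT.code (K := K) (Q := Q)) := by
  intro a b h
  cases a <;> cases b <;> simp_all [NT.code]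

instance {K : ℕ} {Q : Type} [Finite Q] : Finite (NT K Q) := Finite.of_injective _ NT.code_inj

/-- active nonterminals -/
def NT.Act {K : ℕ} {Q : Type} : NT K Q → Prop
  | .L => False
  | .R => False
  | .tok _ => False
  | _ => True

section

variable {K : ℕ} {Q : Type}

/-- symbols of the grammar -/
abbrev Sy (K : ℕ) (Q : Type) : Type := Symbol (Option (Fin 3)) (NT K Q)

/-- nonterminal symbol -/
abbrev nt (A : NT K Q) : Sy K Q := Symbol.nonterminal A

/-- terminal symbol -/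
abbrev te (K : ℕ) (Q : Type) (a : Option (Fin 3)) : Sy K Q := Symbol.terminal a

/-- token -/
abbrev tk (Q : Type) (i : Option (Fin K)) : Sy K Q := Symbol.nonterminal (.tok i)

/-- the rules -/
inductive Ru (ins : Q → MI K Q) (q0 q1 : Q) (r0 r1 : Fin K) : List (Sy K Q) → List (Sy K Q) → Prop
  | start : Ru ins q0 q1 r0 r1 [nt .s0] [nt .s1, nt .R]
  | a : Ru ins q0 q1 r0 r1 [nt .s1] [te K Q (some 0), nt .s1, tk Q (some r0)]
  | ab : Ru ins q0 q1 r0 r1 [nt .s1] [nt .s2]
  | b : Ru ins q0 q1 r0 r1 [nt .s2] [te K Q (some 1), nt .s2]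
  | bc : Ru ins q0 q1 r0 r1 [nt .s2] [nt .s3]
  | c : Ru ins q0 q1 r0 r1 [nt .s3] [te K Q (some 2), nt .s3]
  | cm : Ru ins q0 q1 r0 r1 [nt .s3] [nt .s4]
  | k : Ru ins q0 q1 r0 r1 [nt .s4] [nt .s4, tk Q (some r1)]
  | m : Ru ins q0 q1 r0 r1 [nt .s4] [nt .L, nt (.bwd q0)]
  | inc (q q' : Q) (r : Fin K) (h : ins q = .inc r q') :
      Ru ins q0 q1 r0 r1 [nt .L, nt (.bwd q)] [nt .L, nt (.bwd q'), tk Q (some r)]
  | jmp (q q' : Q) (h : ins q = .jmp q') :
      Ru ins q0 q1 r0 r1 [nt .L, nt (.bwd q)] [nt .L, nt (.bwd q')]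
  | dec (q : Q) : Ru ins q0 q1 r0 r1 [nt .L, nt (.bwd q)] [nt .L, nt (.fwd q)]
  | go (q p p' : Q) (r : Fin K) (i : Option (Fin K)) (h : ins q = .dec r p p') (hi : i ≠ some r) :
      Ru ins q0 q1 r0 r1 [nt (.fwd q), tk Q i] [tk Q i, nt (.fwd q)]
  | hit (q p p' : Q) (r : Fin K) (h : ins q = .dec r p p') :
      Ru ins q0 q1 r0 r1 [nt (.fwd q), tk Q (some r)] [nt (.bwd p), tk Q none]
  | zero (q p p' : Q) (r : Fin K) (h : ins q = .dec r p p') :
      Ru ins q0 q1 r0 r1 [nt (.fwd q), nt .R] [nt (.bwd p'), nt .R]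
  | bk (q : Q) (i : Option (Fin K)) :
      Ru ins q0 q1 r0 r1 [tk Q i, nt (.bwd q)] [nt (.bwd q), tk Q i]
  | halt : Ru ins q0 q1 r0 r1 [nt .L, nt (.bwd q1)] [te K Q none, nt .fin]
  | fi : Ru ins q0 q1 r0 r1 [nt .fin, tk Q none] [te K Q none, nt .fin]
  | stop : Ru ins q0 q1 r0 r1 [nt .fin, nt .R] [te K Q none, te K Q none]

/-- one derivation step of the grammar with rule set `P` -/
def Step {T N : Type} (P : Set (List (Symbol T N) × List (Symbol T N)))
    (α β : List (Symbol T N)) : Prop :=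
  ∃ (u v l r : List (Symbol T N)), (l, r) ∈ P ∧ α = u ++ l ++ v ∧ β = u ++ r ++ v

/-- the terminal word `w` is generated from `S` -/
def Gen {T N : Type} (P : Set (List (Symbol T N) × List (Symbol T N))) (S : N) (w : List T) :
    Prop :=
  ReflTransGen (Step P) [Symbol.nonterminal S] (w.map Symbol.terminal)

theorem Step.ctx {T N : Type} {P : Set (List (Symbol T N) × List (Symbol T N))}
    {α β : List (Symbol T N)} (h : Step P α β) (x y : List (Symbol T N)) :
    Step P (x ++ α ++ y) (x ++ β ++ y) := by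
  obtain ⟨u, v, l, r, h1, rfl, rfl⟩ := h
  exact ⟨x ++ u, v ++ y, l, r, h1, by simp, by simp⟩

theorem Steps.ctx {T N : Type} {P : Set (List (Symbol T N) × List (Symbol T N))}
    {α β : List (Symbol T N)} (h : ReflTransGen (Step P) α β) (x y : List (Symbol T N)) :
    ReflTransGen (Step P) (x ++ α ++ y) (x ++ β ++ y) := by
  induction h with
  | refl => exact .refl
  | tail _ h ih => exact ih.tail (h.ctx x y)

/-- register contents given by a list of tokens -/
def cnt (w : List (Option (Fin K))) : Fin K → ℕ := fun i => w.count (some i)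

/-- reachable configurations for the input `m` -/
def Re (ins : Q → MI K Q) (q0 : Q) (m : ℕ) (x : Q × (Fin K → ℕ)) : Prop :=
  ∃ k j, (mstep ins)^[j] (q0, st0 K m k) = x

/-- the rule set -/
def RS (ins : Q → MI K Q) (q0 q1 : Q) (r0 r1 : Fin K) : Set (List (Sy K Q) × List (Sy K Q)) :=
  {ρ | Ru ins q0 q1 r0 r1 ρ.1 ρ.2}

theorem RS_finite [Finite Q] (ins : Q → MI K Q) (q0 q1 : Q) (r0 r1 : Fin K) :
    (RS ins q0 q1 r0 r1).Finite := by
  have : Finite (Sy K Q) := by
    refine Finite.of_injective (fun s : Sy K Q => match s with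
      | .terminal a => (Sum.inl a : Option (Fin 3) ⊕ NT K Q)
      | .nonterminal A => Sum.inr A) ?_
    intro a b h
    cases a <;> cases b <;> simp_all
  refine Set.Finite.subset ((List.finite_length_le (Sy K Q) 3).prod
    (List.finite_length_le (Sy K Q) 3)) ?_
  rintro ⟨l, r⟩ h
  have h' : Ru ins q0 q1 r0 r1 l r := h
  rw [Set.mem_prod]
  cases h' <;> simp

theorem RS_len (ins : Q → MI K Q) (q0 q1 : Q) (r0 r1 : Fin K) :
    ∀ ρ ∈ RS ins q0 q1 r0 r1, (∃ A, Symbol.nonterminal A ∈ ρ.1) ∧ ρ.1.length ≤ ρ.2.length := by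
  rintro ⟨l, r⟩ h
  have h' : Ru ins q0 q1 r0 r1 l r := h
  cases h' <;> simp

end

end Pool.Agent.V11232.CF
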