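import Pool.Agent.V11232.CF.Gram

/-!
Soundness of the simulation.
-/

set_option autoImplicit false

namespace Pool.Agent.V11232.CF

open Relation Function
open Pool.Agent.Helper273.Machine (MI mstep st0 exists_machine)
open Pool.Agent.W937.FG (abc)

section

variable {K : ℕ} {Q : Type}

/-- active symbols -/
def ActS : Sy K Q → Prop
  | .terminal _ => False
  | .nonterminal A => A.Act

theorem split_uniq {α : Type*} (Ac : α → Prop) {u v p s : List α} {a b : α}
    (hu : ∀ x ∈ u, ¬ Ac x) (hv : ∀ x ∈ v, ¬ Ac x) (hb : Ac b)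
    (h : u ++ a :: v = p ++ b :: s) : p = u ∧ b = a ∧ s = v := by
  induction u generalizing p with
  | nil =>
    cases p with
    | nil => simp only [List.nil_append, List.cons.injEq] at h; exact ⟨rfl, h.1.symm, h.2.symm⟩
    | cons x p =>
      simp only [List.nil_append, List.cons_append, List.cons.injEq] at h
      exact absurd hb (hv b (by rw [h.2]; simp))
  | cons x u ih =>
    cases p with
    | nil =>
      simp only [List.nil_append, List.cons_append, List.cons.injEq] at h
      exact absurd hb (hu b (by rw [← h.1]; simp))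
    | cons y p =>
      simp only [List.cons_append, List.cons.injEq] at h
      obtain ⟨h1, h2, h3⟩ := ih (fun x hx => hu x (by simp [hx])) h.2
      exact ⟨by rw [h1, h.1], h2, h3⟩

/-- the number of letters `a` -/
def na (p : List (Option (Fin 3))) : ℕ := p.count (some 0)

/-- terminals as symbols -/
def TT (K : ℕ) (Q : Type) (p : List (Option (Fin 3))) : List (Sy K Q) := p.map Symbol.terminal

/-- tokens as symbols -/
def TK (Q : Type) (v : List (Option (Fin K))) : List (Sy K Q) := v.map (fun i => tk Q i)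

/-- the invariant at the active symbol -/
def I (ins : Q → MI K Q) (q0 q1 : Q) (r0 r1 : Fin K) (A : NT K Q) (u v : List (Sy K Q)) : Prop :=
  match A with
  | .s0 => u = [] ∧ v = []
  | .s1 => ∃ p, u = TT K Q p ∧ v = TK Q (List.replicate (na p) (some r0)) ++ [nt .R]
  | .s2 => ∃ p, u = TT K Q p ∧ v = TK Q (List.replicate (na p) (some r0)) ++ [nt .R]
  | .s3 => ∃ p, u = TT K Q p ∧ v = TK Q (List.replicate (na p) (some r0)) ++ [nt .R]
  | .s4 => ∃ p k, u = TT K Q p ∧
      v = TK Q (List.replicate k (some r1) ++ List.replicate (na p) (some r0)) ++ [nt .R]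
  | .bwd q => ∃ p u' v', u = TT K Q p ++ nt .L :: TK Q u' ∧ v = TK Q v' ++ [nt .R] ∧
      Re ins q0 (na p) (q, cnt (u' ++ v'))
  | .fwd q => ∃ p u' v', u = TT K Q p ++ nt .L :: TK Q u' ∧ v = TK Q v' ++ [nt .R] ∧
      Re ins q0 (na p) (q, cnt (u' ++ v')) ∧ ∀ r p p', ins q = .dec r p p' → some r ∉ u'
  | .fin => ∃ p v', u = TT K Q p ∧ v = TK Q v' ++ [nt .R] ∧ Re ins q0 (na p) (q1, cnt v')
  | .L => False
  | .R => False
  | .tok _ => False

theorem notAct_TT (p : List (Option (Fin 3))) : ∀ x ∈ TT K Q p, ¬ ActS x := by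
  intro x hx
  unfold TT at hx
  obtain ⟨a, _, rfl⟩ := List.mem_map.1 hx
  exact fun h => h

theorem notAct_TK (p : List (Option (Fin K))) : ∀ x ∈ TK Q p, ¬ ActS x := by
  intro x hx
  unfold TK at hx
  obtain ⟨a, _, rfl⟩ := List.mem_map.1 hx
  exact fun h => h

theorem I_pass {ins : Q → MI K Q} {q0 q1 : Q} {r0 r1 : Fin K} {A : NT K Q} {u v : List (Sy K Q)}
    (h : I ins q0 q1 r0 r1 A u v) : (∀ x ∈ u, ¬ ActS x) ∧ (∀ x ∈ v, ¬ ActS x) := by
  have hR : ¬ ActS (nt .R : Sy K Q) := fun h => h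
  have hL : ¬ ActS (nt .L : Sy K Q) := fun h => h
  have e1 : ∀ w : List (Option (Fin K)), ∀ x ∈ TK Q w ++ [nt .R], ¬ ActS x := by
    intro w x hx
    rcases List.mem_append.1 hx with hx | hx
    · exact notAct_TK w x hx
    · rw [List.mem_singleton] at hx
      rw [hx]; exact hR
  have e2 : ∀ (p : List (Option (Fin 3))) (w : List (Option (Fin K))),
      ∀ x ∈ TT K Q p ++ nt .L :: TK Q w, ¬ ActS x := by
    intro p w x hx
    rcases List.mem_append.1 hx with hx | hx
    · exact notAct_TT p x hx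
    · rcases List.mem_cons.1 hx with hx | hx
      · rw [hx]; exact hL
      · exact notAct_TK w x hx
  cases A with
  | s0 => obtain ⟨rfl, rfl⟩ := h; simp
  | s1 => obtain ⟨p, rfl, rfl⟩ := h; exact ⟨notAct_TT p, e1 _⟩
  | s2 => obtain ⟨p, rfl, rfl⟩ := h; exact ⟨notAct_TT p, e1 _⟩
  | s3 => obtain ⟨p, rfl, rfl⟩ := h; exact ⟨notAct_TT p, e1 _⟩
  | s4 => obtain ⟨p, k, rfl, rfl⟩ := h; exact ⟨notAct_TT p, e1 _⟩
  | L => exact h.elim
  | R => exact h.elim
  | tok i => exact h.elim
  | fwd q => obtain ⟨p, u', v', rfl, rfl, _⟩ := h; exact ⟨e2 _ _, e1 _⟩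
  | bwd q => obtain ⟨p, u', v', rfl, rfl, _⟩ := h; exact ⟨e2 _ _, e1 _⟩
  | fin => obtain ⟨p, v', rfl, rfl, _⟩ := h; exact ⟨notAct_TT p, e1 _⟩

/-- the invariant -/
def Inv (ins : Q → MI K Q) (q0 q1 : Q) (r0 r1 : Fin K) (α : List (Sy K Q)) : Prop :=
  (∃ u A v, α = u ++ nt A :: v ∧ I ins q0 q1 r0 r1 A u v) ∨
  ∃ p, α = TT K Q p ∧ Re ins q0 (na p) (q1, fun _ => 0)

theorem na_app (p p' : List (Option (Fin 3))) : na (p ++ p') = na p + na p' := by
  unfold na; rw [List.count_append]

theorem na_none : na [none] = 0 := by unfold na; decide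
theorem na_zero : na [some 0] = 1 := by unfold na; decide
theorem na_one : na [some 1] = 0 := by unfold na; decide
theorem na_two : na [some 2] = 0 := by unfold na; decide

/-- the splitting at a token before the active symbol -/
theorem split_tok {P : List (Sy K Q)} {i : Option (Fin K)} {p : List (Option (Fin 3))}
    {u' : List (Option (Fin K))} (h : P ++ [tk Q i] = TT K Q p ++ nt .L :: TK Q u') :
    ∃ u'', u' = u'' ++ [i] ∧ P = TT K Q p ++ nt .L :: TK Q u'' := by
  rcases List.eq_nil_or_concat u' with rfl | ⟨u'', j, rfl⟩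
  · exfalso
    have h2 := congrArg List.getLast? h
    simp [TK] at h2
  · rw [List.concat_eq_append] at h ⊢
    have e : TT K Q p ++ nt .L :: TK Q (u'' ++ [j]) = (TT K Q p ++ nt .L :: TK Q u'') ++ [tk Q j] := by
      simp [TK]
    rw [e] at h
    obtain ⟨h1, h2⟩ := List.append_inj' h rfl
    simp only [List.cons.injEq, Symbol.nonterminal.injEq, NT.tok.injEq, and_true] at h2
    exact ⟨u'', by rw [h2], h1⟩

theorem split_L {P : List (Sy K Q)} {p : List (Option (Fin 3))}
    {u' : List (Option (Fin K))} (h : P ++ [nt .L] = TT K Q p ++ nt .L :: TK Q u') :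
    u' = [] ∧ P = TT K Q p := by
  rcases List.eq_nil_or_concat u' with rfl | ⟨u'', j, rfl⟩
  · have e : TT K Q p ++ nt .L :: TK Q ([] : List (Option (Fin K))) = TT K Q p ++ [nt .L] := by
      simp [TK]
    rw [e] at h
    exact ⟨rfl, (List.append_inj' h rfl).1⟩
  · exfalso
    rw [List.concat_eq_append] at h
    have e : TT K Q p ++ nt .L :: TK Q (u'' ++ [j]) = (TT K Q p ++ nt .L :: TK Q u'') ++ [tk Q j] := by
      simp [TK]
    rw [e] at h
    obtain ⟨h1, h2⟩ := List.append_inj' h rfl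
    simp at h2

theorem split_tok' {S : List (Sy K Q)} {i : Option (Fin K)} {v' : List (Option (Fin K))}
    (h : tk Q i :: S = TK Q v' ++ [nt .R]) : ∃ v'', v' = i :: v'' ∧ S = TK Q v'' ++ [nt .R] := by
  cases v' with
  | nil => simp [TK] at h
  | cons j v'' =>
    simp only [TK, List.map_cons, List.cons_append, List.cons.injEq, Symbol.nonterminal.injEq,
      NT.tok.injEq] at h
    exact ⟨v'', by rw [h.1], h.2⟩

theorem split_R {S : List (Sy K Q)} {v' : List (Option (Fin K))}
    (h : nt .R :: S = TK Q v' ++ [nt .R]) : v' = [] ∧ S = [] := by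
  cases v' with
  | nil => simpa [TK] using h
  | cons j v'' => simp [TK] at h

theorem Re.step {ins : Q → MI K Q} {q0 : Q} {m : ℕ} {x y : Q × (Fin K → ℕ)} (h : Re ins q0 m x)
    (hy : mstep ins x = y) : Re ins q0 m y := by
  obtain ⟨k, j, h⟩ := h
  refine ⟨k, j + 1, ?_⟩
  rw [iterate_succ_apply', h, hy]

theorem cnt_none (u v : List (Option (Fin K))) : cnt (u ++ none :: v) = cnt (u ++ v) := by
  funext i
  unfold cnt
  rw [List.count_append, List.count_append, List.count_cons]
  simp

theorem cnt_some (u v : List (Option (Fin K))) (r : Fin K) :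
    cnt (u ++ some r :: v) = update (cnt (u ++ v)) r (cnt (u ++ v) r + 1) := by
  funext i
  unfold cnt
  rw [update_apply]
  by_cases h : i = r
  · subst h
    rw [if_pos rfl, List.count_append, List.count_append, List.count_cons_self]
    omega
  · rw [if_neg h, List.count_append, List.count_append, List.count_cons_of_ne]
    intro h'
    exact h (Option.some.inj h').symm

theorem step_inv {ins : Q → MI K Q} {q0 q1 : Q} {r0 r1 : Fin K} (hK : (r0 : ℕ) = 0) (hK1 : (r1 : ℕ) = 1)
    {α β : List (Sy K Q)} (h : Step (RS ins q0 q1 r0 r1) α β) (hα : Inv ins q0 q1 r0 r1 α) :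
    Inv ins q0 q1 r0 r1 β := by
  obtain ⟨P, S, l, r, hr, rfl, rfl⟩ := h
  have hr' : Ru ins q0 q1 r0 r1 l r := hr
  rcases hα with ⟨u, A, v, hα, hI⟩ | ⟨p, hα, _⟩
  swap
  · exfalso
    obtain ⟨B, hB⟩ := (RS_len ins q0 q1 r0 r1 _ hr).1
    have : Symbol.nonterminal B ∈ TT K Q p := by
      rw [← hα]
      simp [hB]
    unfold TT at this
    simp at this
  obtain ⟨pu, pv⟩ := I_pass hI
  have key : ∀ (x y : List (Sy K Q)) (B : NT K Q), B.Act → l = x ++ nt B :: y →
      B = A ∧ P ++ x = u ∧ y ++ S = v := by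
    intro x y B hB hl
    have h2 : u ++ nt A :: v = (P ++ x) ++ nt B :: (y ++ S) := by
      rw [← hα, hl]; simp
    obtain ⟨h3, h4, h5⟩ := split_uniq ActS pu pv (show ActS (nt B : Sy K Q) from hB) h2
    exact ⟨by simpa using h4, h3, h5⟩
  cases hr' with
  | start =>
    obtain ⟨rfl, h1, h2⟩ := key [] [] .s0 trivial rfl
    obtain ⟨h3, h4⟩ := hI
    rw [h3] at h1
    rw [h4] at h2
    have e1 : P = [] := by simpa using h1
    have e2 : S = [] := by simpa using h2
    subst e1; subst e2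
    exact Or.inl ⟨[], .s1, [nt .R], rfl, [], rfl, rfl⟩
  | a =>
    obtain ⟨rfl, h1, h2⟩ := key [] [] .s1 trivial rfl
    obtain ⟨p, h3, h4⟩ := hI
    have e1 : P = TT K Q p := by rw [← h3, ← h1]; simp
    have e2 : S = TK Q (List.replicate (na p) (some r0)) ++ [nt .R] := by rw [← h4, ← h2]; simp
    refine Or.inl ⟨TT K Q (p ++ [some 0]), .s1,
      TK Q (List.replicate (na (p ++ [some 0])) (some r0)) ++ [nt .R], ?_, p ++ [some 0], rfl, rfl⟩
    rw [e1, e2, na_app, na_zero, List.replicate_succ]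
    simp [TT, TK]
  | ab =>
    obtain ⟨rfl, h1, h2⟩ := key [] [] .s1 trivial rfl
    obtain ⟨p, h3, h4⟩ := hI
    have e1 : P = TT K Q p := by rw [← h3, ← h1]; simp
    have e2 : S = TK Q (List.replicate (na p) (some r0)) ++ [nt .R] := by rw [← h4, ← h2]; simp
    exact Or.inl ⟨P, .s2, S, by simp, p, e1, e2⟩
  | b =>
    obtain ⟨rfl, h1, h2⟩ := key [] [] .s2 trivial rfl
    obtain ⟨p, h3, h4⟩ := hI
    have e1 : P = TT K Q p := by rw [← h3, ← h1]; simp
    have e2 : S = TK Q (List.replicate (na p) (some r0)) ++ [nt .R] := by rw [← h4, ← h2]; simp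
    refine Or.inl ⟨TT K Q (p ++ [some 1]), .s2, S, ?_, p ++ [some 1], rfl, ?_⟩
    · rw [e1]; simp [TT]
    · rw [e2, na_app, na_one, Nat.add_zero]
  | bc =>
    obtain ⟨rfl, h1, h2⟩ := key [] [] .s2 trivial rfl
    obtain ⟨p, h3, h4⟩ := hI
    have e1 : P = TT K Q p := by rw [← h3, ← h1]; simp
    have e2 : S = TK Q (List.replicate (na p) (some r0)) ++ [nt .R] := by rw [← h4, ← h2]; simp
    exact Or.inl ⟨P, .s3, S, by simp, p, e1, e2⟩
  | c =>
    obtain ⟨rfl, h1, h2⟩ := key [] [] .s3 trivial rfl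
    obtain ⟨p, h3, h4⟩ := hI
    have e1 : P = TT K Q p := by rw [← h3, ← h1]; simp
    have e2 : S = TK Q (List.replicate (na p) (some r0)) ++ [nt .R] := by rw [← h4, ← h2]; simp
    refine Or.inl ⟨TT K Q (p ++ [some 2]), .s3, S, ?_, p ++ [some 2], rfl, ?_⟩
    · rw [e1]; simp [TT]
    · rw [e2, na_app, na_two, Nat.add_zero]
  | cm =>
    obtain ⟨rfl, h1, h2⟩ := key [] [] .s3 trivial rfl
    obtain ⟨p, h3, h4⟩ := hI
    have e1 : P = TT K Q p := by rw [← h3, ← h1]; simp
    have e2 : S = TK Q (List.replicate (na p) (some r0)) ++ [nt .R] := by rw [← h4, ← h2]; simp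
    refine Or.inl ⟨P, .s4, S, by simp, p, 0, e1, ?_⟩
    rw [e2, List.replicate_zero, List.nil_append]
  | k =>
    obtain ⟨rfl, h1, h2⟩ := key [] [] .s4 trivial rfl
    obtain ⟨p, k, h3, h4⟩ := hI
    have e1 : P = TT K Q p := by rw [← h3, ← h1]; simp
    refine Or.inl ⟨P, .s4, tk Q (some r1) :: S, by simp, p, k + 1, e1, ?_⟩
    rw [List.nil_append] at h2
    rw [h2, h4, List.replicate_succ]
    simp [TK]
  | m =>
    obtain ⟨rfl, h1, h2⟩ := key [] [] .s4 trivial rfl
    obtain ⟨p, k, h3, h4⟩ := hI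
    have e1 : P = TT K Q p := by rw [← h3, ← h1]; simp
    refine Or.inl ⟨TT K Q p ++ nt .L :: TK Q [], .bwd q0, S, by rw [e1]; simp [TK], p, [],
      List.replicate k (some r1) ++ List.replicate (na p) (some r0), rfl, ?_, k, 0, ?_⟩
    · rw [List.nil_append] at h2
      rw [h2, h4]
    · rw [iterate_zero_apply, Prod.mk.injEq]
      refine ⟨rfl, ?_⟩
      funext i
      unfold cnt st0
      rw [List.nil_append, List.count_append, List.count_replicate, List.count_replicate]
      by_cases hi0 : (i : ℕ) = 0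
      · have : i = r0 := Fin.ext (by rw [hi0, hK])
        subst this
        have h01 : r1 ≠ i := by
          intro h
          have := congrArg Fin.val h
          omega
        simp [hi0, h01]
      · rw [if_neg hi0]
        by_cases hi1 : (i : ℕ) = 1
        · have : i = r1 := Fin.ext (by rw [hi1, hK1])
          subst this
          have h01 : r0 ≠ i := by
            intro h
            have := congrArg Fin.val h
            omega
          simp [hi1, h01]
        · have h0 : r0 ≠ i := by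
            intro h
            have := congrArg Fin.val h
            omega
          have h1 : r1 ≠ i := by
            intro h
            have := congrArg Fin.val h
            omega
          simp [hi1, h0, h1]
  | inc q q' r hq =>
    obtain ⟨rfl, h1, h2⟩ := key [nt .L] [] (.bwd q) trivial rfl
    obtain ⟨p, u', v', h3, h4, h5⟩ := hI
    obtain ⟨rfl, rfl⟩ := split_L (h1.trans h3)
    rw [List.nil_append] at h2 h5
    refine Or.inl ⟨TT K Q p ++ nt .L :: TK Q [], .bwd q', tk Q (some r) :: S, by simp [TK], p, [],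
      some r :: v', rfl, ?_, ?_⟩
    · rw [h2, h4]; simp [TK]
    · refine h5.step ?_
      unfold mstep
      rw [show ins (q, cnt v').1 = .inc r q' from hq]
      have := cnt_some (K := K) [] v' r
      simp only [List.nil_append] at this ⊢
      rw [this]
  | jmp q q' hq =>
    obtain ⟨rfl, h1, h2⟩ := key [nt .L] [] (.bwd q) trivial rfl
    obtain ⟨p, u', v', h3, h4, h5⟩ := hI
    obtain ⟨rfl, rfl⟩ := split_L (h1.trans h3)
    rw [List.nil_append] at h2 h5
    refine Or.inl ⟨TT K Q p ++ nt .L :: TK Q [], .bwd q', S, by simp [TK], p, [],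
      v', rfl, ?_, ?_⟩
    · rw [h2, h4]
    · refine h5.step ?_
      unfold mstep
      rw [show ins (q, cnt v').1 = .jmp q' from hq]
      simp
  | dec q =>
    obtain ⟨rfl, h1, h2⟩ := key [nt .L] [] (.bwd q) trivial rfl
    obtain ⟨p, u', v', h3, h4, h5⟩ := hI
    obtain ⟨rfl, rfl⟩ := split_L (h1.trans h3)
    rw [List.nil_append] at h2
    refine Or.inl ⟨TT K Q p ++ nt .L :: TK Q [], .fwd q, S, by simp [TK], p, [],
      v', rfl, ?_, h5, fun _ _ _ _ => by simp⟩
    rw [h2, h4]
  | go q s s' r i hq hi =>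
    obtain ⟨rfl, h1, h2⟩ := key [] [tk Q i] (.fwd q) trivial rfl
    obtain ⟨p, u', v', h3, h4, h5, h6⟩ := hI
    rw [List.append_nil] at h1
    obtain ⟨v'', rfl, rfl⟩ := split_tok' (h2.trans h4)
    refine Or.inl ⟨TT K Q p ++ nt .L :: TK Q (u' ++ [i]), .fwd q, TK Q v'' ++ [nt .R], ?_, p,
      u' ++ [i], v'', rfl, rfl, ?_, ?_⟩
    · rw [h1, h3]; simp [TK]
    · simpa using h5
    · intro r' t t' hr' hm
      rw [hq] at hr'
      simp only [MI.dec.injEq] at hr'
      obtain ⟨rfl, _, _⟩ := hr'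
      rcases List.mem_append.1 hm with hm | hm
      · exact h6 _ _ _ hq hm
      · rw [List.mem_singleton] at hm
        exact hi hm.symm
  | hit q s s' r hq =>
    obtain ⟨rfl, h1, h2⟩ := key [] [tk Q (some r)] (.fwd q) trivial rfl
    obtain ⟨p, u', v', h3, h4, h5, h6⟩ := hI
    rw [List.append_nil] at h1
    obtain ⟨v'', rfl, rfl⟩ := split_tok' (h2.trans h4)
    refine Or.inl ⟨TT K Q p ++ nt .L :: TK Q u', .bwd s, TK Q (none :: v'') ++ [nt .R], ?_, p,
      u', none :: v'', rfl, rfl, h5.step ?_⟩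
    · rw [h1, h3]; simp [TK]
    · unfold mstep
      rw [show ins (q, cnt (u' ++ some r :: v'')).1 = .dec r s s' from hq]
      rw [cnt_some, cnt_none]
      simp
  | zero q s s' r hq =>
    obtain ⟨rfl, h1, h2⟩ := key [] [nt .R] (.fwd q) trivial rfl
    obtain ⟨p, u', v', h3, h4, h5, h6⟩ := hI
    rw [List.append_nil] at h1
    obtain ⟨rfl, rfl⟩ := split_R (h2.trans h4)
    refine Or.inl ⟨TT K Q p ++ nt .L :: TK Q u', .bwd s', TK Q [] ++ [nt .R], ?_, p,
      u', [], rfl, rfl, h5.step ?_⟩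
    · rw [h1, h3]; simp [TK]
    · unfold mstep
      rw [show ins (q, cnt (u' ++ [])).1 = .dec r s s' from hq]
      have : cnt (u' ++ []) r = 0 := by
        unfold cnt
        rw [List.append_nil]
        exact List.count_eq_zero.2 (h6 _ _ _ hq)
      simp only [List.append_nil] at this ⊢
      rw [if_pos this]
  | bk q i =>
    obtain ⟨rfl, h1, h2⟩ := key [tk Q i] [] (.bwd q) trivial rfl
    obtain ⟨p, u', v', h3, h4, h5⟩ := hI
    obtain ⟨u'', rfl, rfl⟩ := split_tok (h1.trans h3)
    rw [List.nil_append] at h2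
    refine Or.inl ⟨TT K Q p ++ nt .L :: TK Q u'', .bwd q, TK Q (i :: v') ++ [nt .R], ?_, p,
      u'', i :: v', rfl, rfl, ?_⟩
    · rw [h2, h4]; simp [TK]
    · simpa using h5
  | halt =>
    obtain ⟨rfl, h1, h2⟩ := key [nt .L] [] (.bwd q1) trivial rfl
    obtain ⟨p, u', v', h3, h4, h5⟩ := hI
    obtain ⟨rfl, rfl⟩ := split_L (h1.trans h3)
    rw [List.nil_append] at h2 h5
    refine Or.inl ⟨TT K Q (p ++ [none]), .fin, TK Q v' ++ [nt .R], ?_, p ++ [none], v', rfl, rfl, ?_⟩
    · rw [h2, h4]; simp [TT]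
    · rw [na_app, na_none, Nat.add_zero]; exact h5
  | fi =>
    obtain ⟨rfl, h1, h2⟩ := key [] [tk Q none] .fin trivial rfl
    obtain ⟨p, v', h3, h4, h5⟩ := hI
    rw [List.append_nil] at h1
    obtain ⟨v'', rfl, rfl⟩ := split_tok' (h2.trans h4)
    refine Or.inl ⟨TT K Q (p ++ [none]), .fin, TK Q v'' ++ [nt .R], ?_, p ++ [none], v'', rfl,
      rfl, ?_⟩
    · rw [h1, h3]; simp [TT]
    · rw [na_app, na_none, Nat.add_zero]
      have := cnt_none (K := K) [] v''
      simp only [List.nil_append] at this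
      rw [← this]
      exact h5
  | stop =>
    obtain ⟨rfl, h1, h2⟩ := key [] [nt .R] .fin trivial rfl
    obtain ⟨p, v', h3, h4, h5⟩ := hI
    rw [List.append_nil] at h1
    obtain ⟨rfl, rfl⟩ := split_R (h2.trans h4)
    refine Or.inr ⟨p ++ [none] ++ [none], ?_, ?_⟩
    · rw [h1, h3]; simp [TT]
    · rw [na_app, na_app, na_none]
      simp only [Nat.add_zero]
      have e : cnt ([] : List (Option (Fin K))) = fun _ => 0 := by
        funext i
        simp [cnt]
      rw [← e]
      exact h5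

theorem inv_gen {ins : Q → MI K Q} {q0 q1 : Q} {r0 r1 : Fin K} (hK : (r0 : ℕ) = 0)
    (hK1 : (r1 : ℕ) = 1) {w : List (Option (Fin 3))} (h : Gen (RS ins q0 q1 r0 r1) .s0 w) :
    Re ins q0 (na w) (q1, fun _ => 0) := by
  have h2 : Inv ins q0 q1 r0 r1 (w.map Symbol.terminal) := by
    have : ∀ α, ReflTransGen (Step (RS ins q0 q1 r0 r1)) [Symbol.nonterminal .s0] α →
        Inv ins q0 q1 r0 r1 α := by
      intro α hα
      induction hα with
      | refl => exact Or.inl ⟨[], .s0, [], rfl, rfl, rfl⟩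
      | tail _ h ih => exact step_inv hK hK1 h ih
    exact this _ h
  rcases h2 with ⟨u, A, v, h3, _⟩ | ⟨p, h3, h4⟩
  · exfalso
    have : (Symbol.nonterminal A : Sy K Q) ∈ w.map Symbol.terminal := by rw [h3]; simp
    simp at this
  · have : w = p := by
      unfold TT at h3
      exact List.map_injective_iff.2 (fun a b h => by simpa using h) h3
    rw [this]
    exact h4

end

end Pool.Agent.V11232.CF
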